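import Pool.Agent.Y219.CQ.Blk

/-!
# Project CQ: the probability that a random symmetric completion is good (S_LA)
-/

set_option autoImplicit false

open scoped Classical

namespace Pool.Agent.Y219.CQ

open Function Module Finset
open Pool.Agent.Y759.CX (fr fr_equiv fr_comp)
open Pool.Agent.Y703.CQ (S_SYM S_C2 S_LA c2 prs GdA)

/-- the form of a matrix -/
noncomputable def bf {ι κ : Type} [Fintype ι] [Fintype κ] (M : ι → κ → F) :
    (ι → F) →ₗ[F] (κ → F) →ₗ[F] F :=
  LinearMap.mk₂ F (fun x y => ∑ i, ∑ k, x i * M i k * y k)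
    (fun x y z => by
      rw [← sum_add_distrib]
      refine sum_congr rfl fun i _ => ?_
      rw [← sum_add_distrib]
      exact sum_congr rfl fun k _ => by rw [Pi.add_apply]; ring)
    (fun a x y => by
      rw [smul_eq_mul, mul_sum]
      refine sum_congr rfl fun i _ => ?_
      rw [mul_sum]
      exact sum_congr rfl fun k _ => by rw [Pi.smul_apply, smul_eq_mul]; ring)
    (fun x y z => by
      rw [← sum_add_distrib]
      refine sum_congr rfl fun i _ => ?_
      rw [← sum_add_distrib]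
      exact sum_congr rfl fun k _ => by rw [Pi.add_apply]; ring)
    (fun a x y => by
      rw [smul_eq_mul, mul_sum]
      refine sum_congr rfl fun i _ => ?_
      rw [mul_sum]
      exact sum_congr rfl fun k _ => by rw [Pi.smul_apply, smul_eq_mul]; ring)

section forms

variable {ι κ : Type} [Fintype ι] [Fintype κ]

lemma bf_apply (M : ι → κ → F) (x : ι → F) (y : κ → F) :
    bf M x y = ∑ i, ∑ k, x i * M i k * y k := rfl

lemma bf_l (M : ι → κ → F) (x : ι → F) (y : κ → F) :
    bf M x y = ∑ k, (∑ i, x i * M i k) * y k := by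
  rw [bf_apply, sum_comm]
  exact sum_congr rfl fun k _ => by rw [sum_mul]

lemma bf_r (M : ι → κ → F) (x : ι → F) (y : κ → F) :
    bf M x y = ∑ i, (∑ k, M i k * y k) * x i := by
  rw [bf_apply]
  refine sum_congr rfl fun i _ => ?_
  rw [sum_mul]
  exact sum_congr rfl fun k _ => by ring

lemma bf_symm (M : ι → ι → F) (h : ∀ i j, M i j = M j i) (x y : ι → F) :
    bf M x y = bf M y x := by
  rw [bf_apply, bf_apply, sum_comm]
  exact sum_congr rfl fun k _ => sum_congr rfl fun i _ => by rw [h i k]; ring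

lemma bf_add (M M' : ι → κ → F) : bf (fun i k => M i k + M' i k) = bf M + bf M' := by
  refine LinearMap.ext fun x => LinearMap.ext fun y => ?_
  show bf _ x y = bf M x y + bf M' x y
  rw [bf_apply, bf_apply, bf_apply, ← sum_add_distrib]
  refine sum_congr rfl fun i _ => ?_
  rw [← sum_add_distrib]
  exact sum_congr rfl fun k _ => by ring

lemma bf_single [DecidableEq ι] [DecidableEq κ] (M : ι → κ → F) (i : ι) (k : κ) :
    bf M (Pi.single i 1) (Pi.single k 1) = M i k := by
  rw [bf_apply, sum_eq_single i, sum_eq_single k]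
  · rw [Pi.single_eq_same, Pi.single_eq_same, one_mul, mul_one]
  · intro k' _ hk
    rw [Pi.single_eq_of_ne hk, mul_zero]
  · intro h
    exact absurd (mem_univ _) h
  · intro i' _ hi
    refine sum_eq_zero fun k' _ => ?_
    rw [Pi.single_eq_of_ne hi, zero_mul, zero_mul]
  · intro h
    exact absurd (mem_univ _) h

lemma all_zero (w : ι → F) (h : ∀ x : ι → F, ∑ i, w i * x i = 0) (i : ι) : w i = 0 := by
  have h1 := h (Pi.single i 1)
  rw [sum_eq_single i] at h1
  · rwa [Pi.single_eq_same, mul_one] at h1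
  · intro i' _ hi
    rw [Pi.single_eq_of_ne hi, mul_zero]
  · intro h
    exact absurd (mem_univ _) h

lemma Gs_iff (MA : ι → ι → F) (MC : ι → κ → F) (MS : κ → κ → F) :
    Gs (bf MA) (bf MC) (bf MS) ↔ ∀ (x : ι → F) (y : κ → F),
      (∀ v, ∑ u, x u * MA u v + ∑ k, MC v k * y k = 0) →
      (∀ l, ∑ u, x u * MC u l + ∑ k, y k * MS k l = 0) → x = 0 ∧ y = 0 := by
  constructor
  · intro h x y h1 h2
    refine h x y (fun x' => ?_) (fun y' => ?_)
    · rw [bf_l, bf_r, ← sum_add_distrib]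
      refine sum_eq_zero fun v _ => ?_
      rw [← add_mul, h1, zero_mul]
    · rw [bf_l, bf_l, ← sum_add_distrib]
      refine sum_eq_zero fun v _ => ?_
      rw [← add_mul, h2, zero_mul]
  · intro h x y h1 h2
    refine h x y (all_zero _ fun x' => ?_) (all_zero _ fun y' => ?_)
    · have h3 := h1 x'
      rw [bf_l, bf_r, ← sum_add_distrib] at h3
      rw [← h3]
      exact sum_congr rfl fun v _ => by rw [add_mul]
    · have h3 := h2 y'
      rw [bf_l, bf_l, ← sum_add_distrib] at h3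
      rw [← h3]
      exact sum_congr rfl fun v _ => by rw [add_mul]

/-- the extension by zero -/
noncomputable def zx (I : Finset ι) (x : I → F) (u : ι) : F := if h : u ∈ I then x ⟨u, h⟩ else 0

lemma zx_of (I : Finset ι) (x : I → F) (u : I) : zx I x u = x u := by
  unfold zx
  rw [dif_pos u.2]

lemma zx_not (I : Finset ι) (x : I → F) {u : ι} (h : u ∉ I) : zx I x u = 0 := by
  unfold zx
  rw [dif_neg h]

lemma sum_zx (I : Finset ι) (x : I → F) (h : ι → F) :
    ∑ v, h v * zx I x v = ∑ v : I, h v * x v := by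
  have h1 : ∑ v, h v * zx I x v = ∑ v ∈ I, h v * zx I x v := by
    symm
    refine sum_subset (subset_univ _) fun v _ hv => ?_
    rw [zx_not I x hv, mul_zero]
  rw [h1, ← Finset.sum_coe_sort I]
  exact sum_congr rfl fun v _ => by rw [zx_of]

end forms

section main

variable {U J : Type} [Fintype U] [Fintype J] [LinearOrder J]

lemma mem_prs (J1 : Finset J) (k l : J) :
    (k, l) ∈ prs J1 ↔ k ∈ J1 ∧ l ≠ k ∧ (l ∈ J1 → k < l) := by
  unfold Pool.Agent.Y703.CQ.prs
  rw [mem_filter]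
  exact ⟨fun h => h.2, fun h => ⟨mem_univ _, h⟩⟩

lemma ext_self (J1 : Finset J) (α : prs J1 → F) (k : J) : Pool.Agent.Y703.CQ.ext α k k = 0 := by
  have h : (k, k) ∉ prs J1 := fun h => ((mem_prs J1 k k).1 h).2.1 rfl
  unfold Pool.Agent.Y703.CQ.ext
  rw [dif_neg h, dif_neg fun h' => h h'.1]

lemma ext_pos (J1 : Finset J) (α : prs J1 → F) {k l : J} (h : (k, l) ∈ prs J1) :
    Pool.Agent.Y703.CQ.ext α k l = α ⟨(k, l), h⟩ := by
  unfold Pool.Agent.Y703.CQ.ext
  rw [dif_pos h]

lemma ext_neg (J1 : Finset J) (α : prs J1 → F) {k l : J} (h : (k, l) ∈ prs J1) (hl : l ∈ J1) :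
    Pool.Agent.Y703.CQ.ext α l k = α ⟨(k, l), h⟩ := by
  have h0 := (mem_prs J1 k l).1 h
  have h1 : (l, k) ∉ prs J1 := fun h' =>
    lt_asymm (h0.2.2 hl) (((mem_prs J1 l k).1 h').2.2 h0.1)
  unfold Pool.Agent.Y703.CQ.ext
  rw [dif_neg h1, dif_pos ⟨h, hl⟩]

lemma ext_symm (J1 : Finset J) (α : prs J1 → F) {k l : J} (hk : k ∈ J1) (hl : l ∈ J1) :
    Pool.Agent.Y703.CQ.ext α k l = Pool.Agent.Y703.CQ.ext α l k := by
  rcases lt_trichotomy k l with h | h | h
  · have h1 : (k, l) ∈ prs J1 := (mem_prs J1 k l).2 ⟨hk, h.ne', fun _ => h⟩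
    rw [ext_pos J1 α h1, ext_neg J1 α h1 hl]
  · rw [h]
  · have h1 : (l, k) ∈ prs J1 := (mem_prs J1 l k).2 ⟨hl, h.ne', fun _ => h⟩
    rw [ext_pos J1 α h1, ext_neg J1 α h1 hk]

lemma ext_add (J1 : Finset J) (α β : prs J1 → F) (k l : J) :
    Pool.Agent.Y703.CQ.ext (α + β) k l =
      Pool.Agent.Y703.CQ.ext α k l + Pool.Agent.Y703.CQ.ext β k l := by
  unfold Pool.Agent.Y703.CQ.ext
  by_cases h : (k, l) ∈ prs J1
  · simp only [dif_pos h, Pi.add_apply]
  · by_cases h' : (l, k) ∈ prs J1 ∧ k ∈ J1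
    · simp only [dif_neg h, dif_pos h', Pi.add_apply]
    · simp only [dif_neg h, dif_neg h', add_zero]

/-- the linear part of the matrix of the last block -/
noncomputable def mL (J1 : Finset J) (α : prs J1 → F) (k l : J1) : F :=
  Pool.Agent.Y703.CQ.ext α k l +
    if k = l then ∑ l' : J, Pool.Agent.Y703.CQ.ext α k l' else 0

/-- the constant part -/
noncomputable def mZ (J1 : Finset J) (C : J → U → F) (g : J → F) (k l : J1) : F :=
  if k = l then ∑ u, C k u + g k else 0

/-- the first block -/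
noncomputable def mA (U1 : Finset U) (A : U → U → F) (B : U → J → F) (f : U → F) (u v : U1) : F :=
  A u v + if u = v then ∑ w, A u w + ∑ l, B u l + f u else 0

/-- the second block -/
def mC (U1 : Finset U) (J1 : Finset J) (C : J → U → F) (u : U1) (k : J1) : F := C k u

lemma mL_symm (J1 : Finset J) (α : prs J1 → F) (k l : J1) : mL J1 α k l = mL J1 α l k := by
  unfold mL
  by_cases h : k = l
  · rw [h]
  · rw [if_neg h, if_neg (Ne.symm h), ext_symm J1 α k.2 l.2]

lemma mZ_symm (J1 : Finset J) (C : J → U → F) (g : J → F) (k l : J1) :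
    mZ J1 C g k l = mZ J1 C g l k := by
  unfold mZ
  by_cases h : k = l
  · rw [h]
  · rw [if_neg h, if_neg (Ne.symm h)]

/-- the parametrisation -/
noncomputable def pa (J1 : Finset J) : (prs J1 → F) →+ Sy (J1 → F) where
  toFun α := ⟨bf (mL J1 α), bf_symm _ (mL_symm J1 α)⟩
  map_zero' := by
    refine Subtype.ext ?_
    show bf (mL J1 0) = 0
    refine LinearMap.ext fun x => LinearMap.ext fun y => ?_
    rw [bf_apply]
    show _ = (0 : F)
    refine sum_eq_zero fun i _ => sum_eq_zero fun k _ => ?_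
    have h0 : ∀ a b, Pool.Agent.Y703.CQ.ext (0 : prs J1 → F) a b = 0 := by
      intro a b
      have h1 := ext_add J1 0 0 a b
      rw [add_zero] at h1
      exact left_eq_add.1 h1
    have h : mL J1 0 i k = 0 := by
      unfold mL
      simp only [h0, sum_const_zero, ite_self, add_zero]
    rw [h, mul_zero, zero_mul]
  map_add' α β := by
    refine Subtype.ext ?_
    show bf (mL J1 (α + β)) = bf (mL J1 α) + bf (mL J1 β)
    rw [← bf_add]
    congr 1
    funext k l
    unfold mL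
    simp only [ext_add, sum_add_distrib]
    by_cases h : k = l
    · simp only [if_pos h]
      ring
    · simp only [if_neg h, add_zero]

lemma char2 (a : F) : a + a = 0 := CharTwo.add_self_eq_zero a

lemma pa_surj (J1 : Finset J) (h0 : ∃ l, l ∉ J1) : Surjective (pa J1) := by
  obtain ⟨l0, hl0⟩ := h0
  intro T
  obtain ⟨D, hD⟩ : ∃ D : J → J → F, D = fun k l => if h : k ∈ J1 ∧ l ∈ J1 then
    T.1 (Pi.single ⟨k, h.1⟩ 1) (Pi.single ⟨l, h.2⟩ 1) else 0 := ⟨_, rfl⟩
  have hD1 : ∀ k l : J1, D k l = T.1 (Pi.single k 1) (Pi.single l 1) := by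
    intro k l
    rw [hD]
    simp only
    rw [dif_pos ⟨k.2, l.2⟩]
  have hDs : ∀ k l : J, k ∈ J1 → l ∈ J1 → D k l = D l k := by
    intro k l hk hl
    have h1 := hD1 ⟨k, hk⟩ ⟨l, hl⟩
    have h2 := hD1 ⟨l, hl⟩ ⟨k, hk⟩
    have h3 := T.2 (Pi.single ⟨k, hk⟩ 1) (Pi.single ⟨l, hl⟩ 1)
    exact h1.trans (h3.trans h2.symm)
  obtain ⟨α, hα⟩ : ∃ α : prs J1 → F, α = fun e => if e.1.2 ∈ J1 then D e.1.1 e.1.2 else
    if e.1.2 = l0 then ∑ l' ∈ J1, D e.1.1 l' else 0 := ⟨_, rfl⟩
  have e1 : ∀ k l, k ∈ J1 → l ∈ J1 → k ≠ l → Pool.Agent.Y703.CQ.ext α k l = D k l := by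
    intro k l hk hl hkl
    rcases lt_or_gt_of_ne hkl with h | h
    · rw [ext_pos J1 α ((mem_prs J1 k l).2 ⟨hk, h.ne', fun _ => h⟩), hα]
      simp only
      rw [if_pos hl]
    · rw [ext_neg J1 α ((mem_prs J1 l k).2 ⟨hl, h.ne', fun _ => h⟩) hk, hα]
      simp only
      rw [if_pos hk, hDs l k hl hk]
  have e2 : ∀ k, k ∈ J1 → Pool.Agent.Y703.CQ.ext α k l0 = ∑ l' ∈ J1, D k l' := by
    intro k hk
    have hne : l0 ≠ k := fun h => hl0 (h ▸ hk)
    rw [ext_pos J1 α ((mem_prs J1 k l0).2 ⟨hk, hne, fun h => absurd h hl0⟩), hα]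
    simp only
    rw [if_neg hl0, if_pos trivial]
  have e3 : ∀ k l, k ∈ J1 → l ∉ J1 → l ≠ l0 → Pool.Agent.Y703.CQ.ext α k l = 0 := by
    intro k l hk hl hll
    have hne : l ≠ k := fun h => hl (h ▸ hk)
    rw [ext_pos J1 α ((mem_prs J1 k l).2 ⟨hk, hne, fun h => absurd h hl⟩), hα]
    simp only
    rw [if_neg hl, if_neg hll]
  have e4 : ∀ k, k ∈ J1 → ∑ l, Pool.Agent.Y703.CQ.ext α k l = D k k := by
    intro k hk
    have h1 : ∑ l, Pool.Agent.Y703.CQ.ext α k l =
        ∑ l ∈ insert l0 J1, Pool.Agent.Y703.CQ.ext α k l := by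
      symm
      refine sum_subset (subset_univ _) fun l _ hl => ?_
      rw [mem_insert, not_or] at hl
      exact e3 k l hk hl.2 hl.1
    rw [h1, sum_insert hl0, e2 k hk, ← add_sum_erase J1 _ hk, ← add_sum_erase J1 _ hk, ext_self,
      zero_add]
    have h2 : ∑ l ∈ J1.erase k, Pool.Agent.Y703.CQ.ext α k l = ∑ l ∈ J1.erase k, D k l :=
      sum_congr rfl fun l hl => e1 k l hk (mem_of_mem_erase hl) (ne_of_mem_erase hl).symm
    rw [h2, add_assoc, char2, add_zero]
  refine ⟨α, Subtype.ext ?_⟩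
  show bf (mL J1 α) = T.1
  refine LinearMap.ext_basis (Pi.basisFun F J1) (Pi.basisFun F J1) fun k l => ?_
  rw [Pi.basisFun_apply, Pi.basisFun_apply, bf_single, ← hD1]
  unfold mL
  by_cases h : k = l
  · rw [if_pos h, e4 k k.2, ← h, ext_self, zero_add]
  · rw [if_neg h, add_zero]
    exact e1 k l k.2 l.2 fun h' => h (Subtype.ext h')

lemma row1 (U1 : Finset U) (J1 : Finset J) (A : U → U → F) (B : U → J → F) (C : J → U → F)
    (f : U → F) (hA : ∀ u ∈ U1, ∀ v ∈ U1, A u v = A v u) (hB : ∀ u ∈ U1, ∀ k ∈ J1, B u k = C k u)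
    (x : U1 → F) (y : J1 → F) (v : U1) :
    ∑ w, A v w * (zx U1 x w + zx U1 x v) + ∑ l, B v l * (zx J1 y l + zx U1 x v) +
      f v * zx U1 x v = ∑ u, x u * mA U1 A B f u v + ∑ k, mC U1 J1 C v k * y k := by
  simp only [mul_add, sum_add_distrib, sum_zx, zx_of]
  have h1 : ∑ u, x u * mA U1 A B f u v = ∑ u : U1, A v u * x u +
      x v * (∑ w, A v w + ∑ l, B v l + f v) := by
    unfold mA
    simp only [mul_add, sum_add_distrib]
    congr 1
    · exact sum_congr rfl fun u _ => by rw [hA u u.2 v v.2, mul_comm]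
    · rw [sum_eq_single v]
      · rw [if_pos rfl]
        ring
      · intro u _ hu
        rw [if_neg hu, mul_zero]
      · intro h
        exact absurd (mem_univ _) h
  have h2 : ∑ k, mC U1 J1 C v k * y k = ∑ k : J1, B v k * y k :=
    sum_congr rfl fun k _ => by rw [hB v v.2 k k.2]; rfl
  rw [h1, h2, ← sum_mul, ← sum_mul]
  ring

lemma row2 (U1 : Finset U) (J1 : Finset J) (C : J → U → F) (g : J → F) (α : prs J1 → F)
    (x : U1 → F) (y : J1 → F) (l : J1) :
    ∑ u, C l u * (zx U1 x u + zx J1 y l) +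
      ∑ k, Pool.Agent.Y703.CQ.ext α l k * (zx J1 y k + zx J1 y l) + g l * zx J1 y l =
    ∑ u, x u * mC U1 J1 C u l + ∑ k, y k * (mL J1 α k l + mZ J1 C g k l) := by
  simp only [mul_add, sum_add_distrib, sum_zx, zx_of]
  have h1 : ∑ k, y k * mL J1 α k l = ∑ k : J1, Pool.Agent.Y703.CQ.ext α l k * y k +
      (∑ k : J, Pool.Agent.Y703.CQ.ext α l k) * y l := by
    unfold mL
    simp only [mul_add, sum_add_distrib]
    congr 1
    · exact sum_congr rfl fun k _ => by rw [ext_symm J1 α k.2 l.2, mul_comm]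
    · rw [sum_eq_single l]
      · rw [if_pos rfl, mul_comm]
      · intro u _ hu
        rw [if_neg hu, mul_zero]
      · intro h
        exact absurd (mem_univ _) h
  have h2 : ∑ k, y k * mZ J1 C g k l = (∑ u, C l u + g l) * y l := by
    unfold mZ
    rw [sum_eq_single l]
    · rw [if_pos rfl, mul_comm]
    · intro u _ hu
      rw [if_neg hu, mul_zero]
    · intro h
      exact absurd (mem_univ _) h
  have h3 : ∑ u, x u * mC U1 J1 C u l = ∑ u : U1, C l u * x u :=
    sum_congr rfl fun u _ => by rw [mul_comm]; rfl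
  rw [h1, h2, h3, ← sum_mul, ← sum_mul]
  ring

lemma gd_iff (U1 : Finset U) (J1 : Finset J) (A : U → U → F) (B : U → J → F) (C : J → U → F)
    (f : U → F) (g : J → F) (hA : ∀ u ∈ U1, ∀ v ∈ U1, A u v = A v u)
    (hB : ∀ u ∈ U1, ∀ k ∈ J1, B u k = C k u) (α : prs J1 → F) :
    GdA U1 J1 A B C (Pool.Agent.Y703.CQ.ext α) f g ↔
      Gs (bf (mA U1 A B f)) (bf (mC U1 J1 C)) (bf fun k l => mL J1 α k l + mZ J1 C g k l) := by
  rw [Gs_iff]
  constructor
  · intro h x y h1 h2
    obtain ⟨h3, h4⟩ := h (zx U1 x) (zx J1 y) (fun u hu => zx_not U1 x hu)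
      (fun k hk => zx_not J1 y hk)
      (fun u hu => by
        rw [row1 U1 J1 A B C f hA hB x y ⟨u, hu⟩]
        exact h1 _)
      (fun k hk => by
        rw [row2 U1 J1 C g α x y ⟨k, hk⟩]
        exact h2 _)
    refine ⟨funext fun u => ?_, funext fun k => ?_⟩
    · rw [← zx_of U1 x u, h3]
      rfl
    · rw [← zx_of J1 y k, h4]
      rfl
  · intro h x y hx hy h1 h2
    have e1 : zx U1 (fun u => x u) = x := by
      funext u
      by_cases hu : u ∈ U1
      · exact zx_of U1 (fun u => x u) ⟨u, hu⟩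
      · rw [zx_not U1 _ hu, hx u hu]
    have e2 : zx J1 (fun u => y u) = y := by
      funext u
      by_cases hu : u ∈ J1
      · exact zx_of J1 (fun u => y u) ⟨u, hu⟩
      · rw [zx_not J1 _ hu, hy u hu]
    obtain ⟨h3, h4⟩ := h (fun u => x u) (fun k => y k)
      (fun u => by
        rw [← row1 U1 J1 A B C f hA hB, e1, e2]
        exact h1 u u.2)
      (fun k => by
        rw [← row2 U1 J1 C g α, e1, e2]
        exact h2 k k.2)
    refine ⟨fun u => ?_, fun k => ?_⟩
    · by_cases hu : u ∈ U1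
      · exact congrFun h3 ⟨u, hu⟩
      · exact hx u hu
    · by_cases hk : k ∈ J1
      · exact congrFun h4 ⟨k, hk⟩
      · exact hy k hk

end main

theorem t_LA (h : S_SYM) (h2 : S_C2) : S_LA := by
  intro U J _ _ _ U1 J1 hJ A B C f g hA hB hC
  have e1 : finrank F (U1 → F) = U1.card := by
    rw [finrank_fintype_fun_eq_card, Fintype.card_coe]
  have e2 : finrank F (J1 → F) = J1.card := by
    rw [finrank_fintype_fun_eq_card, Fintype.card_coe]
  have key := fr_Gs h h2 (bf (mA U1 A B f)) (bf_symm _ fun u v => by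
      unfold mA
      by_cases huv : u = v
      · rw [huv]
      · rw [if_neg huv, if_neg (Ne.symm huv), hA u u.2 v v.2])
    (bf (mC U1 J1 C)) (fun x hx => by
      by_contra hne
      obtain ⟨k, hk, hk'⟩ := hC (zx U1 x) (fun u hu => zx_not U1 x hu) (by
        by_contra hc
        push Not at hc
        exact hne (funext fun u => by rw [← zx_of U1 x u, hc]; rfl))
      apply hk'
      have h3 := all_zero (fun k : J1 => ∑ i, x i * mC U1 J1 C i k) (fun y => by
        rw [← bf_l]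
        exact hx y) ⟨k, hk⟩
      rw [← h3]
      have h4 : ∑ u, zx U1 x u * C k u = ∑ u, C k u * zx U1 x u :=
        sum_congr rfl fun u _ => mul_comm _ _
      rw [h4, sum_zx]
      exact sum_congr rfl fun u _ => by rw [mul_comm]; rfl)
  rw [e1, e2] at key
  have h5 : ((univ.filter fun α : prs J1 → ZMod 2 =>
      GdA U1 J1 A B C (Pool.Agent.Y703.CQ.ext α) f g).card : ℝ) / 2 ^ (prs J1).card =
      fr (fun S : Sy (J1 → F) => Gs (bf (mA U1 A B f)) (bf (mC U1 J1 C)) S.1) := by
    let S0 : Sy (J1 → F) := ⟨bf (mZ J1 C g), bf_symm _ (mZ_symm J1 C g)⟩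
    rw [← fr_equiv (Equiv.addRight S0)
      (fun S : Sy (J1 → F) => Gs (bf (mA U1 A B f)) (bf (mC U1 J1 C)) S.1),
      ← fr_comp (pa J1) (pa_surj J1 hJ)]
    unfold Pool.Agent.Y759.CX.fr
    have h6 : Nat.card (prs J1 → F) = 2 ^ (prs J1).card := by
      rw [Nat.card_fun, Nat.card_eq_fintype_card, Nat.card_eq_fintype_card, ZMod.card,
        Fintype.card_coe]
    rw [h6, Nat.card_eq_fintype_card, Fintype.card_subtype]
    push_cast
    congr 3
    refine Finset.filter_congr fun α _ => ?_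
    rw [gd_iff U1 J1 A B C f g hA hB α, bf_add]
    exact Iff.rfl
  rw [h5]
  exact key

end Pool.Agent.Y219.CQ
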